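import Mathlib

/-!
# Happy edges for parallel flips

A set of 16 points in the plane with two triangulations `T`, `T'` such that every shortest
parallel-flip path from `T` to `T'` loses an edge common to `T` and `T'` on the way.

The points are `u_1, …, u_7` (a chain bulging downwards), `l_1, …, l_7` (a chain bulging upwards,
below the first one), a point `p` on the left and a point `q` on the right of the corridor between
the two chains.  In `T` the corridor is triangulated in zigzag order; in `T'` all points of the two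
chains are joined to `q`.  Both contain the edge `u_1 l_1`, which separates `p` from the corridor.
As long as `u_1 l_1` is kept, a parallel flip lowers `max {a + b : u_a l_b an edge}` by at most one,
so at least 12 flips are needed.  If `u_1 l_1` is given up, 11 parallel flips suffice: `p` swallows
one half of the corridor and `q` the other half at the same time.
-/

set_option autoImplicit false

namespace Pool.Agent.Results.MP_797cb5_co.HappyEdges

/-! ### Definitions -/

/-- points of the plane -/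
abbrev Pt : Type := ℝ × ℝ

/-- the points of the segment with the given pair of endpoints -/
def seg (e : Sym2 Pt) : Set Pt := {x | ∃ a b, e = s(a, b) ∧ x ∈ segment ℝ a b}

/-- two segments cross if they meet at a point that is not an endpoint of either -/
def Cross (e f : Sym2 Pt) : Prop := ∃ x, x ∈ seg e ∧ x ∈ seg f ∧ x ∉ e ∧ x ∉ f

/-- segments with two different endpoints in `S` and no other point of `S` on them -/
def IsEdge (S : Finset Pt) (e : Sym2 Pt) : Prop :=
  ¬ e.IsDiag ∧ (∀ x ∈ e, x ∈ S) ∧ ∀ x ∈ S, x ∈ seg e → x ∈ e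

/-- a triangulation of `S` is a maximal set of pairwise non-crossing edges -/
def IsTriangulation (S : Finset Pt) (T : Set (Sym2 Pt)) : Prop :=
  Maximal (fun T => (∀ e ∈ T, IsEdge S e) ∧ ∀ e ∈ T, ∀ f ∈ T, e ≠ f → ¬ Cross e f) T

/-- `a b c` is a triangle of `T`: its sides are edges of `T` and it contains no other point
of `S` -/
def IsTriangle (S : Finset Pt) (T : Set (Sym2 Pt)) (a b c : Pt) : Prop :=
  a ≠ b ∧ b ≠ c ∧ a ≠ c ∧ s(a, b) ∈ T ∧ s(b, c) ∈ T ∧ s(a, c) ∈ T ∧
    ∀ x ∈ S, x ∈ convexHull ℝ ({a, b, c} : Set Pt) → x = a ∨ x = b ∨ x = c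

/-- `e` and `f` are edges of a common triangle of `T` -/
def CommonTriangle (S : Finset Pt) (T : Set (Sym2 Pt)) (e f : Sym2 Pt) : Prop :=
  ∃ a b c, IsTriangle S T a b c ∧ (e = s(a, b) ∨ e = s(b, c) ∨ e = s(a, c)) ∧
    (f = s(a, b) ∨ f = s(b, c) ∨ f = s(a, c))

/-- `T'` arises from `T` by a parallel flip: a set `E` of edges of `T`, no two of which are edges of
a common triangle of `T`, is removed, and a set `E'` of edges is added, and the result is again a
triangulation -/
def ParallelFlip (S : Finset Pt) (T T' : Set (Sym2 Pt)) : Prop :=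
  IsTriangulation S T ∧ IsTriangulation S T' ∧ ∃ E E' : Set (Sym2 Pt), E ⊆ T ∧
    (∀ e ∈ E, ∀ f ∈ E, e ≠ f → ¬ CommonTriangle S T e f) ∧ T' = (T \ E) ∪ E'

/-- `X 0, …, X ℓ` is a parallel-flip path of length `ℓ` from `T` to `T'` -/
def IsPath (S : Finset Pt) (T T' : Set (Sym2 Pt)) (ℓ : ℕ) (X : ℕ → Set (Sym2 Pt)) : Prop :=
  X 0 = T ∧ X ℓ = T' ∧ ∀ i < ℓ, ParallelFlip S (X i) (X (i + 1))

/-- a path is shortest if no path with the same ends is shorter -/
def IsShortest (S : Finset Pt) (T T' : Set (Sym2 Pt)) (ℓ : ℕ) (X : ℕ → Set (Sym2 Pt)) : Prop :=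
  IsPath S T T' ℓ X ∧ ∀ ℓ' X', IsPath S T T' ℓ' X' → ℓ ≤ ℓ'

/-! ### Coordinates -/

/-- first coordinates; `0, …, 6` are `u_1, …, u_7`, `7, …, 13` are `l_1, …, l_7`, `14` is `p` and
`15` is `q` -/
def cx (i : ℕ) : ℕ := [2, 3, 4, 5, 6, 7, 8, 2, 3, 4, 5, 6, 7, 8, 0, 10].getD i 0

/-- second coordinates -/
def cy (i : ℕ) : ℕ := [98, 93, 90, 89, 90, 93, 98, 0, 5, 8, 9, 8, 5, 0, 49, 49].getD i 0

/-- the points -/
def P (i : ℕ) : Pt := ((cx i : ℝ), (cy i : ℝ))

/-- `a`, `b`, `c` is a left turn -/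
def pos (a b c : ℕ) : Bool :=
  Nat.blt (cx b * cy a + cx a * cy c + cx c * cy b) (cx b * cy c + cx a * cy b + cx c * cy a)

/-- crossing test -/
def cr (e f : ℕ × ℕ) : Bool :=
  !(Nat.beq e.1 f.1) && !(Nat.beq e.1 f.2) && !(Nat.beq e.2 f.1) && !(Nat.beq e.2 f.2) &&
    (pos e.1 e.2 f.1 != pos e.1 e.2 f.2) && (pos f.1 f.2 e.1 != pos f.1 f.2 e.2)

/-- orientation -/
def ori (a b c : Pt) : ℝ := (b.1 - a.1) * (c.2 - a.2) - (b.2 - a.2) * (c.1 - a.1)

theorem pos_iff (a b c : ℕ) : pos a b c = true ↔ 0 < ori (P a) (P b) (P c) := by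
  unfold pos ori P
  rw [Nat.blt_eq]
  have h : (cx b * cy a + cx a * cy c + cx c * cy b < cx b * cy c + cx a * cy b + cx c * cy a) ↔
      ((cx b : ℝ) * cy a + cx a * cy c + cx c * cy b < cx b * cy c + cx a * cy b + cx c * cy a) := by
    exact_mod_cast Iff.rfl
  rw [h]
  constructor <;> intro h <;> simp only at * <;> nlinarith

/-- no three of the points are collinear -/
def gpB : Bool := (List.range 16).all fun a => (List.range 16).all fun b => (List.range 16).all
  fun c => Nat.beq a b || Nat.beq b c || Nat.beq a c || (pos a b c != pos b a c)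

theorem gpB_true : gpB = true := by decide +kernel

theorem gp {a b c : ℕ} (ha : a < 16) (hb : b < 16) (hc : c < 16) (hab : a ≠ b) (hbc : b ≠ c)
    (hac : a ≠ c) : ori (P a) (P b) (P c) ≠ 0 := by
  have h := gpB_true
  unfold gpB at h
  rw [List.all_eq_true] at h
  have h1 := h a (List.mem_range.mpr ha)
  rw [List.all_eq_true] at h1
  have h2 := h1 b (List.mem_range.mpr hb)
  rw [List.all_eq_true] at h2
  have h3 := h2 c (List.mem_range.mpr hc)
  have e1 : Nat.beq a b = false := by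
    rw [Bool.eq_false_iff]; intro h; exact hab (Nat.eq_of_beq_eq_true h)
  have e2 : Nat.beq b c = false := by
    rw [Bool.eq_false_iff]; intro h; exact hbc (Nat.eq_of_beq_eq_true h)
  have e3 : Nat.beq a c = false := by
    rw [Bool.eq_false_iff]; intro h; exact hac (Nat.eq_of_beq_eq_true h)
  rw [e1, e2, e3] at h3
  simp only [Bool.false_or, bne_iff_ne, ne_eq] at h3
  intro h0
  apply h3
  have h4 : ori (P b) (P a) (P c) = 0 := by
    have : ori (P b) (P a) (P c) = - ori (P a) (P b) (P c) := by unfold ori; ring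
    rw [this, h0, neg_zero]
  have e4 : pos a b c = false := by
    rw [Bool.eq_false_iff]; intro h; rw [pos_iff, h0] at h; exact lt_irrefl _ h
  have e5 : pos b a c = false := by
    rw [Bool.eq_false_iff]; intro h; rw [pos_iff, h4] at h; exact lt_irrefl _ h
  rw [e4, e5]

theorem neg_iff {a b c : ℕ} (ha : a < 16) (hb : b < 16) (hc : c < 16) (hab : a ≠ b) (hbc : b ≠ c)
    (hac : a ≠ c) : pos a b c = false ↔ ori (P a) (P b) (P c) < 0 := by
  rw [Bool.eq_false_iff, ne_eq, pos_iff, not_lt]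
  constructor
  · intro h
    exact lt_of_le_of_ne h (gp ha hb hc hab hbc hac)
  · exact le_of_lt

/-- the points are different -/
def injB : Bool := (List.range 16).all fun a => (List.range 16).all fun b =>
  Nat.beq a b || !(Nat.beq (cx a) (cx b)) || !(Nat.beq (cy a) (cy b))

theorem injB_true : injB = true := by decide +kernel

theorem P_inj {a b : ℕ} (ha : a < 16) (hb : b < 16) (h : P a = P b) : a = b := by
  by_contra hab
  have h0 := injB_true
  unfold injB at h0
  rw [List.all_eq_true] at h0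
  have h1 := h0 a (List.mem_range.mpr ha)
  rw [List.all_eq_true] at h1
  have h2 := h1 b (List.mem_range.mpr hb)
  unfold P at h
  rw [Prod.mk.injEq] at h
  have hx : cx a = cx b := by exact_mod_cast h.1
  have hy : cy a = cy b := by exact_mod_cast h.2
  have e1 : Nat.beq a b = false := by
    rw [Bool.eq_false_iff]; intro h; exact hab (Nat.eq_of_beq_eq_true h)
  rw [e1, hx, hy] at h2
  simp at h2

/-- the edge between two of the points -/
def ed (i j : ℕ) : Sym2 Pt := s(P i, P j)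

theorem ed_comm (i j : ℕ) : ed i j = ed j i := Sym2.eq_swap

theorem ed_inj {i j k l : ℕ} (hi : i < 16) (hj : j < 16) (hk : k < 16) (hl : l < 16)
    (h : ed i j = ed k l) : (i = k ∧ j = l) ∨ (i = l ∧ j = k) := by
  unfold ed at h
  rw [Sym2.eq_iff] at h
  rcases h with ⟨h1, h2⟩ | ⟨h1, h2⟩
  · exact Or.inl ⟨P_inj hi hk h1, P_inj hj hl h2⟩
  · exact Or.inr ⟨P_inj hi hl h1, P_inj hj hk h2⟩

theorem seg_mk (a b : Pt) : seg s(a, b) = segment ℝ a b := by
  ext x
  constructor
  · rintro ⟨c, d, h, hx⟩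
    rw [Sym2.eq_iff] at h
    rcases h with ⟨rfl, rfl⟩ | ⟨rfl, rfl⟩
    · exact hx
    · rw [segment_symm]; exact hx
  · intro hx
    exact ⟨a, b, rfl, hx⟩

theorem ori_seg {a b c d x : Pt} (hx : x ∈ segment ℝ c d) (h1 : x ≠ c) (h2 : x ≠ d) :
    ∃ s : ℝ, 0 < s ∧ s < 1 ∧ ori a b x = (1 - s) * ori a b c + s * ori a b d ∧
      x.1 = (1 - s) * c.1 + s * d.1 ∧ x.2 = (1 - s) * c.2 + s * d.2 := by
  obtain ⟨r, s, hr, hs, hrs, rfl⟩ := hx
  have hr' : r = 1 - s := by linarith
  subst hr'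
  refine ⟨s, ?_, ?_, ?_, ?_, ?_⟩
  · rcases hs.lt_or_eq with h | h
    · exact h
    · exfalso; apply h1; rw [← h]; simp
  · by_contra h
    push Not at h
    have : s = 1 := by linarith
    apply h2
    rw [this]; simp
  · unfold ori
    simp only [Prod.fst_add, Prod.snd_add, Prod.smul_fst, Prod.smul_snd, smul_eq_mul]
    ring
  · simp
  · simp

/-- the crossing test is correct -/
theorem cross_imp {i j k l : ℕ} (hi : i < 16) (hj : j < 16) (hk : k < 16) (hl : l < 16)
    (hij : i ≠ j) (hkl : k ≠ l) (hne : ed i j ≠ ed k l) (h : Cross (ed i j) (ed k l)) :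
    cr (i, j) (k, l) = true := by
  obtain ⟨x, h1, h2, h3, h4⟩ := h
  unfold ed at h1 h2 h3 h4
  rw [seg_mk] at h1 h2
  rw [Sym2.mem_iff, not_or] at h3 h4
  obtain ⟨s, hs0, hs1, hs, -, -⟩ := ori_seg (a := P i) (b := P j) h2 h4.1 h4.2
  obtain ⟨t, ht0, ht1, ht, -, -⟩ := ori_seg (a := P k) (b := P l) h1 h3.1 h3.2
  have e1 : ori (P i) (P j) x = 0 := by
    obtain ⟨t, -, -, ht, -, -⟩ := ori_seg (a := P i) (b := P j) h1 h3.1 h3.2
    rw [ht]; unfold ori; ring
  have e2 : ori (P k) (P l) x = 0 := by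
    obtain ⟨t, -, -, ht, -, -⟩ := ori_seg (a := P k) (b := P l) h2 h4.1 h4.2
    rw [ht]; unfold ori; ring
  rw [e1] at hs
  rw [e2] at ht
  have z1 : ∀ a b : Pt, ori a b a = 0 := by intro a b; unfold ori; ring
  have z2 : ∀ a b : Pt, ori a b b = 0 := by intro a b; unfold ori; ring
  -- no common endpoints
  have d1 : i ≠ k := by
    rintro rfl
    rw [z1, mul_zero, zero_add, zero_eq_mul] at hs
    have hjl : j ≠ l := by rintro rfl; exact hne rfl
    rcases hs with hs | hs
    · linarith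
    · exact gp hi hj hl hij hjl hkl hs
  have d2 : i ≠ l := by
    rintro rfl
    rw [z1, mul_zero, add_zero, zero_eq_mul] at hs
    have hjk : j ≠ k := by rintro rfl; exact hne (ed_comm _ _)
    rcases hs with hs | hs
    · linarith
    · exact gp hi hj hk hij hjk hkl.symm hs
  have d3 : j ≠ k := by
    rintro rfl
    rw [z2, mul_zero, zero_add, zero_eq_mul] at hs
    rcases hs with hs | hs
    · linarith
    · exact gp hi hj hl hij hkl d2 hs
  have d4 : j ≠ l := by
    rintro rfl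
    rw [z2, mul_zero, add_zero, zero_eq_mul] at hs
    rcases hs with hs | hs
    · linarith
    · exact gp hi hj hk hij d3 d1 hs
  have b : ∀ {a b : ℕ}, a ≠ b → Nat.beq a b = false := by
    intro a b h
    rw [Bool.eq_false_iff]; intro h'; exact h (Nat.eq_of_beq_eq_true h')
  unfold cr
  simp only [b d1, b d2, b d3, b d4, Bool.not_false, Bool.true_and, Bool.and_eq_true,
    bne_iff_ne, ne_eq]
  constructor
  · intro h
    cases hp : pos i j k with
    | true =>
      have h5 := (pos_iff i j k).mp hp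
      rw [hp] at h
      have h6 := (pos_iff i j l).mp h.symm
      have := mul_pos (sub_pos.mpr hs1) h5
      have := mul_pos hs0 h6
      linarith
    | false =>
      have h5 := (neg_iff hi hj hk hij d3 d1).mp hp
      rw [hp] at h
      have h6 := (neg_iff hi hj hl hij d4 d2).mp h.symm
      have := mul_neg_of_pos_of_neg (sub_pos.mpr hs1) h5
      have := mul_neg_of_pos_of_neg hs0 h6
      linarith
  · intro h
    cases hp : pos k l i with
    | true =>
      have h5 := (pos_iff k l i).mp hp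
      rw [hp] at h
      have h6 := (pos_iff k l j).mp h.symm
      have := mul_pos (sub_pos.mpr ht1) h5
      have := mul_pos ht0 h6
      linarith
    | false =>
      have h5 := (neg_iff hk hl hi hkl d2.symm d1.symm).mp hp
      rw [hp] at h
      have h6 := (neg_iff hk hl hj hkl d4.symm d3.symm).mp h.symm
      have := mul_neg_of_pos_of_neg (sub_pos.mpr ht1) h5
      have := mul_neg_of_pos_of_neg ht0 h6
      linarith

theorem sign_cross {A B : ℝ} (hA : A ≠ 0) (hB : B ≠ 0) (h : ¬ (0 < A ↔ 0 < B)) : A * B < 0 := by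
  rcases lt_or_gt_of_ne hA with h1 | h1 <;> rcases lt_or_gt_of_ne hB with h2 | h2
  · exact absurd (iff_of_false (not_lt.mpr h1.le) (not_lt.mpr h2.le)) h
  · exact mul_neg_of_neg_of_pos h1 h2
  · exact mul_neg_of_pos_of_neg h1 h2
  · exact absurd (iff_of_true h1 h2) h

theorem cross_of {i j k l : ℕ} (hi : i < 16) (hj : j < 16) (hk : k < 16) (hl : l < 16)
    (hij : i ≠ j) (hkl : k ≠ l) (h : cr (i, j) (k, l) = true) : Cross (ed i j) (ed k l) := by
  unfold cr at h
  simp only [Bool.and_eq_true, Bool.not_eq_true', bne_iff_ne, ne_eq] at h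
  obtain ⟨⟨⟨⟨⟨d1, d2⟩, d3⟩, d4⟩, h1⟩, h2⟩ := h
  have b : ∀ {a b : ℕ}, Nat.beq a b = false → a ≠ b := by
    rintro a b h rfl
    rw [Nat.beq_refl] at h
    exact Bool.noConfusion h
  have d1 := b d1
  have d2 := b d2
  have d3 := b d3
  have d4 := b d4
  set A := P i with hA
  set B := P j with hB
  set C := P k with hC
  set D := P l with hD
  have g1 := gp hi hj hk hij d3 d1
  have g2 := gp hi hj hl hij d4 d2
  have g3 := gp hk hl hi hkl d2.symm d1.symm
  have g4 := gp hk hl hj hkl d4.symm d3.symm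
  have s1 : ori A B C * ori A B D < 0 := by
    refine sign_cross g1 g2 ?_
    rw [← pos_iff, ← pos_iff]
    intro h
    apply h1
    rw [Bool.eq_iff_iff]
    exact h
  have s2 : ori C D A * ori C D B < 0 := by
    refine sign_cross g3 g4 ?_
    rw [← pos_iff, ← pos_iff]
    intro h
    apply h2
    rw [Bool.eq_iff_iff]
    exact h
  have key : ∀ u v : ℝ, u * v < 0 → u - v ≠ 0 ∧ 0 < u / (u - v) ∧ u / (u - v) < 1 := by
    intro u v huv
    rcases mul_neg_iff.mp huv with ⟨h1, h2⟩ | ⟨h1, h2⟩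
    · have : 0 < u - v := by linarith
      exact ⟨this.ne', div_pos h1 this, (div_lt_one this).mpr (by linarith)⟩
    · have : u - v < 0 := by linarith
      exact ⟨this.ne, div_pos_of_neg_of_neg h1 this, (div_lt_one_of_neg this).mpr (by linarith)⟩
  obtain ⟨n1, p1, q1⟩ := key _ _ s1
  obtain ⟨n2, p2, q2⟩ := key _ _ s2
  set s := ori A B C / (ori A B C - ori A B D) with hs
  set t := ori C D A / (ori C D A - ori C D B) with ht
  have hpt : (1 - t) • A + t • B = (1 - s) • C + s • D := by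
    have e : ori C D A - ori C D B = -(ori A B C - ori A B D) := by unfold ori; ring
    have n2' : ori A B C - ori A B D ≠ 0 := n1
    apply Prod.ext
    · simp only [Prod.fst_add, Prod.smul_fst, smul_eq_mul]
      rw [ht, hs, e]
      field_simp
      unfold ori
      ring
    · simp only [Prod.snd_add, Prod.smul_snd, smul_eq_mul]
      rw [ht, hs, e]
      field_simp
      unfold ori
      ring
  have hAB : A ≠ B := fun h => hij (P_inj hi hj h)
  have hCD : C ≠ D := fun h => hkl (P_inj hk hl h)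
  have hend : ∀ {A B : Pt} {t : ℝ}, A ≠ B → 0 < t → t < 1 → (1 - t) • A + t • B ≠ A ∧
      (1 - t) • A + t • B ≠ B := by
    intro A B t hAB h0 h1
    constructor
    · intro h
      have h2 : t • (B - A) = 0 := by
        have : (1 - t) • A + t • B - A = t • (B - A) := by
          rw [smul_sub, sub_smul, one_smul]; abel
        rw [← this, h, sub_self]
      rcases smul_eq_zero.mp h2 with h3 | h3
      · linarith
      · exact hAB (sub_eq_zero.mp h3).symm
    · intro h
      have h2 : (1 - t) • (A - B) = 0 := by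
        have : (1 - t) • A + t • B - B = (1 - t) • (A - B) := by
          rw [smul_sub, sub_smul, sub_smul, one_smul, one_smul]; abel
        rw [← this, h, sub_self]
      rcases smul_eq_zero.mp h2 with h3 | h3
      · linarith
      · exact hAB (sub_eq_zero.mp h3)
  refine ⟨(1 - t) • A + t • B, ?_, ?_, ?_, ?_⟩
  · unfold ed; rw [seg_mk]
    exact ⟨1 - t, t, by linarith, by linarith, by ring, rfl⟩
  · unfold ed; rw [seg_mk, hpt]
    exact ⟨1 - s, s, by linarith, by linarith, by ring, rfl⟩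
  · unfold ed; rw [Sym2.mem_iff, not_or]
    exact hend hAB p2 q2
  · unfold ed; rw [Sym2.mem_iff, not_or, hpt]
    exact hend hCD p1 q1

/-! ### Checking triangulations -/

/-- the 16 points -/
noncomputable def S : Finset Pt := (Finset.range 16).image P

theorem mem_S {x : Pt} : x ∈ S ↔ ∃ i < 16, P i = x := by
  unfold S
  simp

/-- the set of edges given by a list of pairs of indices -/
def TS (L : List (ℕ × ℕ)) : Set (Sym2 Pt) := {e | ∃ p ∈ L, e = ed p.1 p.2}

theorem isEdge_ed {i j : ℕ} (hi : i < 16) (hj : j < 16) (hij : i ≠ j) : IsEdge S (ed i j) := by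
  refine ⟨?_, ?_, ?_⟩
  · unfold ed
    rw [Sym2.mk_isDiag_iff]
    exact fun h => hij (P_inj hi hj h)
  · intro x hx
    unfold ed at hx
    rw [Sym2.mem_iff] at hx
    rcases hx with rfl | rfl
    · exact mem_S.mpr ⟨i, hi, rfl⟩
    · exact mem_S.mpr ⟨j, hj, rfl⟩
  · intro x hx hs
    obtain ⟨k, hk, rfl⟩ := mem_S.mp hx
    unfold ed at hs ⊢
    rw [seg_mk] at hs
    rw [Sym2.mem_iff]
    by_contra hc
    push Not at hc
    obtain ⟨h1, h2⟩ := hc
    obtain ⟨t, -, -, ht, -, -⟩ := ori_seg (a := P i) (b := P j) hs h1 h2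
    have h0 : ori (P i) (P j) (P k) = 0 := by
      rw [ht]; unfold ori; ring
    refine gp hi hj hk hij ?_ ?_ h0
    · rintro rfl; exact h2 rfl
    · rintro rfl; exact h1 rfl

theorem exists_ed {e : Sym2 Pt} (h : IsEdge S e) : ∃ i j, i < j ∧ j < 16 ∧ e = ed i j := by
  obtain ⟨h1, h2, -⟩ := h
  induction e using Sym2.ind with
  | _ a b =>
    obtain ⟨i, hi, rfl⟩ := mem_S.mp (h2 a (Sym2.mem_mk_left a b))
    obtain ⟨j, hj, rfl⟩ := mem_S.mp (h2 b (Sym2.mem_mk_right _ b))
    rw [Sym2.mk_isDiag_iff] at h1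
    have hij : i ≠ j := by rintro rfl; exact h1 rfl
    rcases lt_or_gt_of_ne hij with h | h
    · exact ⟨i, j, h, hj, rfl⟩
    · exact ⟨j, i, h, hi, Sym2.eq_swap⟩

/-- membership test -/
def mem' (p : ℕ × ℕ) (L : List (ℕ × ℕ)) : Bool :=
  L.any fun f => Nat.beq p.1 f.1 && Nat.beq p.2 f.2

theorem mem'_iff (p : ℕ × ℕ) (L : List (ℕ × ℕ)) : mem' p L = true ↔ p ∈ L := by
  unfold mem'
  rw [List.any_eq_true]
  constructor
  · rintro ⟨f, hf, h⟩
    rw [Bool.and_eq_true, Nat.beq_eq, Nat.beq_eq] at h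
    have : p = f := Prod.ext h.1 h.2
    rw [this]; exact hf
  · intro h
    exact ⟨p, h, by simp⟩

/-- the list describes a triangulation -/
def chk (L : List (ℕ × ℕ)) : Bool :=
  (L.all fun e => Nat.blt e.1 e.2 && Nat.blt e.2 16) &&
  (L.all fun e => L.all fun f => !(cr e f)) &&
  ((List.range 16).all fun j => (List.range j).all fun i =>
    mem' (i, j) L || L.any fun f => cr (i, j) f)

theorem ok_of_chk {L : List (ℕ × ℕ)} (h : chk L = true) {e : ℕ × ℕ} (he : e ∈ L) :
    e.1 < e.2 ∧ e.2 < 16 := by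
  unfold chk at h
  rw [Bool.and_eq_true, Bool.and_eq_true] at h
  have := List.all_eq_true.mp h.1.1 e he
  rw [Bool.and_eq_true, Nat.blt_eq, Nat.blt_eq] at this
  exact this

theorem tri_of_chk {L : List (ℕ × ℕ)} (h : chk L = true) : IsTriangulation S (TS L) := by
  have hok : ∀ e ∈ L, e.1 < e.2 ∧ e.2 < 16 := fun e he => ok_of_chk h he
  unfold chk at h
  rw [Bool.and_eq_true, Bool.and_eq_true] at h
  obtain ⟨⟨-, h2⟩, h3⟩ := h
  constructor
  · constructor
    · rintro e ⟨p, hp, rfl⟩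
      obtain ⟨h4, h5⟩ := hok p hp
      exact isEdge_ed (h4.trans h5) h5 h4.ne
    · rintro e ⟨p, hp, rfl⟩ f ⟨p', hp', rfl⟩ hne hc
      obtain ⟨h4, h5⟩ := hok p hp
      obtain ⟨h6, h7⟩ := hok p' hp'
      have h8 := cross_imp (h4.trans h5) h5 (h6.trans h7) h7 h4.ne h6.ne hne hc
      have h9 := List.all_eq_true.mp (List.all_eq_true.mp h2 p hp) p' hp'
      rw [Bool.not_eq_true'] at h9
      have h10 : cr p p' = true := h8
      rw [h10] at h9
      exact Bool.noConfusion h9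
  · rintro T' ⟨h4, h5⟩ hle e he
    obtain ⟨i, j, hij, hj, rfl⟩ := exists_ed (h4 e he)
    have h6 := List.all_eq_true.mp (List.all_eq_true.mp h3 j (List.mem_range.mpr hj)) i
      (List.mem_range.mpr hij)
    rw [Bool.or_eq_true] at h6
    rcases h6 with h6 | h6
    · exact ⟨(i, j), (mem'_iff _ _).mp h6, rfl⟩
    · exfalso
      obtain ⟨f, hf, hc⟩ := List.any_eq_true.mp h6
      obtain ⟨h7, h8⟩ := hok f hf
      have hX := cross_of (hij.trans hj) hj (h7.trans h8) h8 hij.ne h7.ne hc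
      refine h5 _ he _ (hle ⟨f, hf, rfl⟩) ?_ hX
      intro heq
      rcases ed_inj (hij.trans hj) hj (h7.trans h8) h8 heq with ⟨h9, h10⟩ | ⟨h9, h10⟩
      · unfold cr at hc
        simp [h9] at hc
      · omega

theorem mem_TS {L : List (ℕ × ℕ)} (h : chk L = true) {i j : ℕ} (hij : i < j) (hj : j < 16)
    (he : ed i j ∈ TS L) : (i, j) ∈ L := by
  obtain ⟨p, hp, heq⟩ := he
  obtain ⟨h4, h5⟩ := ok_of_chk h hp
  rcases ed_inj (hij.trans hj) hj (h4.trans h5) h5 heq with ⟨h9, h10⟩ | ⟨h9, h10⟩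
  · have : (i, j) = p := Prod.ext h9 h10
    rw [this]; exact hp
  · omega

/-- two different edges of a common triangle have a common endpoint, and their other endpoints
are joined by an edge -/
theorem common_imp {T : Set (Sym2 Pt)} {e f : Sym2 Pt} (h : CommonTriangle S T e f)
    (hne : e ≠ f) : ∃ v x y, e = s(v, x) ∧ f = s(v, y) ∧ s(x, y) ∈ T := by
  obtain ⟨a, b, c, ⟨-, -, -, h1, h2, h3, -⟩, he, hf⟩ := h
  rcases he with rfl | rfl | rfl <;> rcases hf with rfl | rfl | rfl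
  · exact absurd rfl hne
  · exact ⟨b, a, c, Sym2.eq_swap, rfl, h3⟩
  · exact ⟨a, b, c, rfl, rfl, h2⟩
  · exact ⟨b, c, a, rfl, Sym2.eq_swap, by rw [Sym2.eq_swap]; exact h3⟩
  · exact absurd rfl hne
  · exact ⟨c, b, a, Sym2.eq_swap, Sym2.eq_swap, by rw [Sym2.eq_swap]; exact h1⟩
  · exact ⟨a, c, b, rfl, rfl, by rw [Sym2.eq_swap]; exact h2⟩
  · exact ⟨c, a, b, Sym2.eq_swap, Sym2.eq_swap, h1⟩
  · exact absurd rfl hne

/-- `x` and `y` are not joined in the list -/
def nj (x y : ℕ) (L : List (ℕ × ℕ)) : Bool := !(mem' (x, y) L) && !(mem' (y, x) L)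

/-- `e` and `f` are not in a common triangle -/
def ind (e f : ℕ × ℕ) (L : List (ℕ × ℕ)) : Bool :=
  (!(Nat.beq e.1 f.1) || nj e.2 f.2 L) && (!(Nat.beq e.1 f.2) || nj e.2 f.1 L) &&
  (!(Nat.beq e.2 f.1) || nj e.1 f.2 L) && (!(Nat.beq e.2 f.2) || nj e.1 f.1 L)

/-- the second list arises from the first by a parallel flip -/
def stepB (L L' : List (ℕ × ℕ)) : Bool :=
  L.all fun e => mem' e L' || L.all fun f => mem' f L' || (Nat.beq e.1 f.1 && Nat.beq e.2 f.2) ||
    ind e f L

theorem nj_imp {L : List (ℕ × ℕ)} (hL : chk L = true) {x y : ℕ} (hx : x < 16) (hy : y < 16)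
    (h : nj x y L = true) : ed x y ∉ TS L := by
  intro he
  unfold nj at h
  rw [Bool.and_eq_true, Bool.not_eq_true', Bool.not_eq_true'] at h
  obtain ⟨p, hp, heq⟩ := he
  obtain ⟨h4, h5⟩ := ok_of_chk hL hp
  rcases ed_inj hx hy (h4.trans h5) h5 heq with ⟨h9, h10⟩ | ⟨h9, h10⟩
  · have : (x, y) = p := Prod.ext h9 h10
    have h6 := (mem'_iff (x, y) L).mpr (by rw [this]; exact hp)
    rw [h6] at h
    exact Bool.noConfusion h.1
  · have : (y, x) = p := Prod.ext h10 h9
    have h6 := (mem'_iff (y, x) L).mpr (by rw [this]; exact hp)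
    rw [h6] at h
    exact Bool.noConfusion h.2

theorem or_imp' {a b : ℕ} {c : Bool} (h : (!(Nat.beq a b) || c) = true) (hab : a = b) :
    c = true := by
  subst hab
  simpa using h

theorem flip_of {L L' : List (ℕ × ℕ)} (hL : chk L = true) (hL' : chk L' = true)
    (h : stepB L L' = true) : ParallelFlip S (TS L) (TS L') := by
  refine ⟨tri_of_chk hL, tri_of_chk hL', TS L \ TS L', TS L' \ TS L, Set.sdiff_subset, ?_, ?_⟩
  · rintro e ⟨⟨p, hp, rfl⟩, he⟩ f ⟨⟨p', hp', rfl⟩, hf⟩ hne hc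
    obtain ⟨h4, h5⟩ := ok_of_chk hL hp
    obtain ⟨h6, h7⟩ := ok_of_chk hL hp'
    have h4' := h4.trans h5
    have h6' := h6.trans h7
    have h8 := List.all_eq_true.mp h p hp
    rw [Bool.or_eq_true] at h8
    rcases h8 with h8 | h8
    · exact he ⟨p, (mem'_iff _ _).mp h8, rfl⟩
    have h9 := List.all_eq_true.mp h8 p' hp'
    rw [Bool.or_eq_true, Bool.or_eq_true] at h9
    rcases h9 with (h9 | h9) | h9
    · exact hf ⟨p', (mem'_iff _ _).mp h9, rfl⟩
    · rw [Bool.and_eq_true, Nat.beq_eq, Nat.beq_eq] at h9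
      apply hne
      rw [h9.1, h9.2]
    · unfold ind at h9
      rw [Bool.and_eq_true, Bool.and_eq_true, Bool.and_eq_true] at h9
      obtain ⟨⟨⟨i1, i2⟩, i3⟩, i4⟩ := h9
      obtain ⟨v, x, y, e1, e2, e3⟩ := common_imp hc hne
      unfold ed at e1 e2
      rw [Sym2.eq_iff] at e1 e2
      rcases e1 with ⟨rfl, rfl⟩ | ⟨rfl, rfl⟩ <;> rcases e2 with ⟨e4, rfl⟩ | ⟨rfl, e4⟩
      · exact nj_imp hL h5 h7 (or_imp' i1 (P_inj h4' h6' e4.symm)) e3
      · exact nj_imp hL h5 h6' (or_imp' i2 (P_inj h4' h7 e4.symm)) e3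
      · exact nj_imp hL h4' h7 (or_imp' i3 (P_inj h5 h6' e4.symm)) e3
      · exact nj_imp hL h4' h6' (or_imp' i4 (P_inj h5 h7 e4.symm)) e3
  · ext x
    simp only [Set.mem_union, Set.mem_sdiff]
    tauto

/-! ### The path of length 11 -/

/-- edges which are never flipped -/
def base : List (ℕ × ℕ) :=
  [(0, 1), (1, 2), (2, 3), (3, 4), (4, 5), (5, 6), (7, 8), (8, 9), (9, 10), (10, 11), (11, 12),
    (12, 13), (0, 2), (0, 3), (0, 4), (0, 5), (0, 6), (7, 9), (7, 10), (7, 11), (7, 12), (7, 13),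
    (0, 14), (7, 14), (6, 15), (13, 15)]

/-- the other edges of the twelve triangulations -/
def cor : ℕ → List (ℕ × ℕ)
  | 0 => [(0, 7), (1, 7), (1, 8), (2, 8), (2, 9), (3, 9), (3, 10), (4, 10), (4, 11), (5, 11), (5, 12), (6, 12), (6, 13)]
  | 1 => [(1, 7), (1, 8), (1, 14), (2, 8), (2, 9), (3, 9), (3, 10), (4, 10), (4, 11), (5, 11), (5, 12), (6, 12), (12, 15)]
  | 2 => [(1, 8), (1, 14), (2, 8), (2, 9), (3, 9), (3, 10), (4, 10), (4, 11), (5, 11), (5, 12), (5, 15), (8, 14), (12, 15)]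
  | 3 => [(1, 14), (2, 8), (2, 9), (2, 14), (3, 9), (3, 10), (4, 10), (4, 11), (5, 11), (5, 15), (8, 14), (11, 15), (12, 15)]
  | 4 => [(1, 14), (2, 9), (2, 14), (3, 9), (3, 10), (4, 10), (4, 11), (4, 15), (5, 15), (8, 14), (9, 14), (11, 15), (12, 15)]
  | 5 => [(1, 14), (2, 14), (3, 9), (3, 10), (3, 14), (4, 10), (4, 15), (5, 15), (8, 14), (9, 14), (10, 15), (11, 15), (12, 15)]
  | 6 => [(1, 14), (2, 14), (3, 10), (3, 14), (3, 15), (4, 15), (5, 15), (8, 14), (9, 14), (10, 14), (10, 15), (11, 15), (12, 15)]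
  | 7 => [(1, 14), (2, 14), (3, 14), (3, 15), (4, 15), (5, 15), (8, 14), (9, 14), (10, 14), (10, 15), (11, 15), (12, 15), (14, 15)]
  | 8 => [(1, 14), (2, 14), (2, 15), (3, 15), (4, 15), (5, 15), (8, 14), (9, 14), (9, 15), (10, 15), (11, 15), (12, 15), (14, 15)]
  | 9 => [(1, 14), (1, 15), (2, 15), (3, 15), (4, 15), (5, 15), (8, 14), (8, 15), (9, 15), (10, 15), (11, 15), (12, 15), (14, 15)]
  | 10 => [(0, 15), (1, 15), (2, 15), (3, 15), (4, 15), (5, 15), (7, 15), (8, 15), (9, 15), (10, 15), (11, 15), (12, 15), (14, 15)]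
  | _ => [(0, 7), (0, 15), (1, 15), (2, 15), (3, 15), (4, 15), (5, 15), (7, 15), (8, 15), (9, 15), (10, 15), (11, 15), (12, 15)]

/-- the lists of the twelve triangulations -/
def Ls (k : ℕ) : List (ℕ × ℕ) := base ++ cor k

theorem chkL : ∀ k < 12, chk (Ls k) = true := by decide +kernel

theorem stepL : ∀ k < 11, stepB (Ls k) (Ls (k + 1)) = true := by decide +kernel

/-- the first triangulation -/
def T0 : Set (Sym2 Pt) := TS (Ls 0)

/-- the last triangulation -/
def T1 : Set (Sym2 Pt) := TS (Ls 11)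

theorem path11 : IsPath S T0 T1 11 (fun k => TS (Ls k)) :=
  ⟨rfl, rfl, fun i hi => flip_of (chkL i (by omega)) (chkL (i + 1) (by omega)) (stepL i hi)⟩

/-! ### The lower bound -/

theorem lem1' : ∀ a < 6, ∀ b < 7, ∀ j < 16, ∀ i < j, (!(cr (i, j) (a, 7 + b)) ||
    cr (i, j) (a + 1, 7 + b) || cr (i, j) (0, 7) ||
    (Nat.beq i (a + 1) && Nat.ble 7 j && Nat.blt j (7 + b))) = true := by
  decide +kernel

/-- an edge crossing `u_{a-1} l_b` and not crossing `u_a l_b` and `u_1 l_1` is `u_a l_{b'}` with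
`b' < b` -/
theorem lem1 (a : ℕ) (ha : a < 7) (h1 : 1 ≤ a) (b : ℕ) (hb : b < 7) (j : ℕ) (hj : j < 16) (i : ℕ)
    (hi : i < j) (h2 : cr (i, j) (a - 1, 7 + b) = true) (h3 : cr (i, j) (a, 7 + b) = false)
    (h4 : cr (i, j) (0, 7) = false) : i = a ∧ 7 ≤ j ∧ j < 7 + b := by
  obtain ⟨a, rfl⟩ : ∃ c, a = c + 1 := ⟨a - 1, by omega⟩
  have h5 := lem1' a (by omega) b hb j hj i hi
  rw [Nat.add_sub_cancel] at h2
  rw [h2, h3, h4] at h5
  simp only [Bool.not_true, Bool.false_or, Bool.and_eq_true, Nat.beq_eq, Nat.ble_eq,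
    Nat.blt_eq] at h5
  exact ⟨h5.1.1, h5.1.2, h5.2⟩

theorem lem2' : ∀ a < 7, ∀ b < 6, ∀ j < 16, ∀ i < j, (!(cr (i, j) (a, 7 + b)) ||
    cr (i, j) (a, 7 + (b + 1)) || cr (i, j) (0, 7) ||
    (Nat.blt i a && Nat.beq j (7 + (b + 1)))) = true := by
  decide +kernel

/-- an edge crossing `u_a l_{b-1}` and not crossing `u_a l_b` and `u_1 l_1` is `u_{a'} l_b` with
`a' < a` -/
theorem lem2 (a : ℕ) (ha : a < 7) (b : ℕ) (hb : b < 7) (h1 : 1 ≤ b) (j : ℕ) (hj : j < 16) (i : ℕ)
    (hi : i < j) (h2 : cr (i, j) (a, 7 + (b - 1)) = true) (h3 : cr (i, j) (a, 7 + b) = false)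
    (h4 : cr (i, j) (0, 7) = false) : i < a ∧ j = 7 + b := by
  obtain ⟨b, rfl⟩ : ∃ c, b = c + 1 := ⟨b - 1, by omega⟩
  have h5 := lem2' a ha b (by omega) j hj i hi
  rw [Nat.add_sub_cancel] at h2
  rw [h2, h3, h4] at h5
  simp only [Bool.not_true, Bool.false_or, Bool.and_eq_true, Nat.beq_eq, Nat.blt_eq] at h5
  exact h5

theorem lem3 : ∀ a < 7, ∀ b < 7, ∀ a' < a, ∀ b' < b, cr (a, 7 + b') (a', 7 + b) = true := by
  decide +kernel

/-- the point `x` is outside the triangle `a b c` -/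
def outB (x a b c : ℕ) : Bool :=
  (pos a b x != pos a b c) || (pos b c x != pos b c a) || (pos c a x != pos c a b)

theorem lem4' : ∀ a < 6, ∀ b < 7, ∀ x < 16,
    (Nat.beq x a || Nat.beq x (a + 1) || Nat.beq x (7 + b) || outB x a (a + 1) (7 + b)) = true := by
  decide +kernel

theorem lem4 (a : ℕ) (ha : a < 7) (h1 : 1 ≤ a) (b : ℕ) (hb : b < 7) (x : ℕ) (hx : x < 16)
    (d1 : x ≠ a - 1) (d2 : x ≠ a) (d3 : x ≠ 7 + b) : outB x (a - 1) a (7 + b) = true := by
  obtain ⟨a, rfl⟩ : ∃ c, a = c + 1 := ⟨a - 1, by omega⟩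
  have h5 := lem4' a (by omega) b hb x hx
  rw [Nat.add_sub_cancel] at d1 ⊢
  simp only [Bool.or_eq_true, Nat.beq_eq] at h5
  rcases h5 with ((h5 | h5) | h5) | h5
  · exact absurd h5 d1
  · exact absurd h5 d2
  · exact absurd h5 d3
  · exact h5

theorem lem5' : ∀ a < 7, ∀ b < 6, ∀ x < 16, (Nat.beq x (7 + b) || Nat.beq x (7 + (b + 1)) ||
    Nat.beq x a || outB x (7 + b) (7 + (b + 1)) a) = true := by
  decide +kernel

theorem lem5 (a : ℕ) (ha : a < 7) (b : ℕ) (hb : b < 7) (h1 : 1 ≤ b) (x : ℕ) (hx : x < 16)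
    (d1 : x ≠ 7 + (b - 1)) (d2 : x ≠ 7 + b) (d3 : x ≠ a) :
    outB x (7 + (b - 1)) (7 + b) a = true := by
  obtain ⟨b, rfl⟩ : ∃ c, b = c + 1 := ⟨b - 1, by omega⟩
  have h5 := lem5' a ha b (by omega) x hx
  rw [Nat.add_sub_cancel] at d1 ⊢
  simp only [Bool.or_eq_true, Nat.beq_eq] at h5
  rcases h5 with ((h5 | h5) | h5) | h5
  · exact absurd h5 d1
  · exact absurd h5 d2
  · exact absurd h5 d3
  · exact h5

theorem hull_ori {A B C x : Pt} (h : x ∈ convexHull ℝ ({A, B, C} : Set Pt)) :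
    ∃ r s t : ℝ, 0 ≤ r ∧ 0 ≤ s ∧ 0 ≤ t ∧ ori A B x = t * ori A B C ∧
      ori B C x = r * ori B C A ∧ ori C A x = s * ori C A B := by
  rw [convexHull_insert (Set.insert_nonempty _ _), convexHull_pair] at h
  rw [mem_convexJoin] at h
  obtain ⟨a, ha, y, hy, hx⟩ := h
  rw [Set.mem_singleton_iff] at ha
  subst ha
  obtain ⟨u, v, hu, hv, huv, rfl⟩ := hy
  obtain ⟨w, z, hw, hz, hwz, rfl⟩ := hx
  have hu' : u = 1 - v := by linarith
  have hw' : w = 1 - z := by linarith
  subst hu' hw'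
  refine ⟨1 - z, z * (1 - v), z * v, hw, mul_nonneg hz hu, mul_nonneg hz hv, ?_, ?_, ?_⟩ <;>
  · unfold ori
    simp only [Prod.fst_add, Prod.snd_add, Prod.smul_fst, Prod.smul_snd, smul_eq_mul]
    ring

theorem out_of {x a b c : ℕ} (hx : x < 16) (ha : a < 16) (hb : b < 16) (hc : c < 16)
    (hab : a ≠ b) (hbc : b ≠ c) (hac : a ≠ c) (hxa : x ≠ a) (hxb : x ≠ b) (hxc : x ≠ c)
    (h : outB x a b c = true) : P x ∉ convexHull ℝ ({P a, P b, P c} : Set Pt) := by
  intro hh
  obtain ⟨r, s, t, hr, hs, ht, e1, e2, e3⟩ := hull_ori hh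
  unfold outB at h
  rw [Bool.or_eq_true, Bool.or_eq_true, bne_iff_ne, bne_iff_ne, bne_iff_ne] at h
  have key : ∀ {a b c : ℕ} {t : ℝ}, a < 16 → b < 16 → c < 16 → a ≠ b → b ≠ c → a ≠ c → x ≠ a →
      x ≠ b → 0 ≤ t → ori (P a) (P b) (P x) = t * ori (P a) (P b) (P c) →
      pos a b x ≠ pos a b c → False := by
    intro a b c t ha hb hc hab hbc hac hxa hxb ht e hne
    cases hp : pos a b c with
    | true =>
      rw [hp] at hne
      have h1 : pos a b x = false := Bool.eq_false_iff.mpr hne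
      have h2 := (pos_iff a b c).mp hp
      have h3 := (neg_iff ha hb hx hab hxb.symm hxa.symm).mp h1
      have := mul_nonneg ht h2.le
      linarith
    | false =>
      rw [hp] at hne
      have h1 : pos a b x = true := by simpa using hne
      have h2 := (neg_iff ha hb hc hab hbc hac).mp hp
      have h3 := (pos_iff a b x).mp h1
      have := mul_nonpos_of_nonneg_of_nonpos ht h2.le
      linarith
  rcases h with (h | h) | h
  · exact key ha hb hc hab hbc hac hxa hxb ht e1 h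
  · exact key hb hc ha hbc hac.symm hab.symm hxb hxc hr e2 h
  · exact key hc ha hb hac.symm hab hbc.symm hxc hxa hs e3 h

/-- the edges that have to be kept: `u_1 l_1` and the edges of the two chains -/
def Keep (X : Set (Sym2 Pt)) : Prop :=
  ed 0 7 ∈ X ∧ (∀ a < 7, 1 ≤ a → ed (a - 1) a ∈ X) ∧ ∀ b < 7, 1 ≤ b → ed (7 + (b - 1)) (7 + b) ∈ X

theorem cr_self (e f : ℕ × ℕ) (h : e = f) : cr e f = false := by
  subst h
  unfold cr
  simp

/-- next to `u_a l_b` there is the edge `u_{a-1} l_b` or the edge `u_a l_{b-1}` -/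
theorem prev {X : Set (Sym2 Pt)} (hX : IsTriangulation S X) (hK : Keep X) {a b : ℕ} (ha : a < 7)
    (hb : b < 7) (hab : 1 ≤ a + b) (he : ed a (7 + b) ∈ X) :
    (1 ≤ a ∧ ed (a - 1) (7 + b) ∈ X) ∨ (1 ≤ b ∧ ed a (7 + (b - 1)) ∈ X) := by
  by_contra hcon
  push Not at hcon
  obtain ⟨h1, h2⟩ := hcon
  -- an edge that is not in `X` is crossed
  have hmax : ∀ i j, i < j → j < 16 → ed i j ∉ X → ∃ k l, k < l ∧ l < 16 ∧ ed k l ∈ X ∧
      cr (k, l) (i, j) = true := by
    intro i j hij hj hn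
    by_contra hc
    push Not at hc
    apply hn
    have hins : (fun T : Set (Sym2 Pt) => (∀ e ∈ T, IsEdge S e) ∧
        ∀ e ∈ T, ∀ f ∈ T, e ≠ f → ¬ Cross e f) (insert (ed i j) X) := by
      have hno : ∀ f ∈ X, f ≠ ed i j → ¬ Cross f (ed i j) := by
        intro f hf hne hcr
        obtain ⟨k, l, hkl, hl, rfl⟩ := exists_ed (hX.prop.1 f hf)
        exact hc k l hkl hl hf (cross_imp (hkl.trans hl) hl (hij.trans hj) hj hkl.ne hij.ne hne hcr)
      have hsymm : ∀ e f : Sym2 Pt, Cross e f → Cross f e := by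
        rintro e f ⟨x, q1, q2, q3, q4⟩
        exact ⟨x, q2, q1, q4, q3⟩
      constructor
      · intro e he
        rcases Set.mem_insert_iff.mp he with rfl | he
        · exact isEdge_ed (hij.trans hj) hj hij.ne
        · exact hX.prop.1 e he
      · intro e he f hf hne
        rcases Set.mem_insert_iff.mp he with rfl | he <;>
          rcases Set.mem_insert_iff.mp hf with rfl | hf
        · exact absurd rfl hne
        · exact fun h => hno f hf hne.symm (hsymm _ _ h)
        · exact hno e he hne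
        · exact hX.prop.2 e he f hf hne
    exact hX.le_of_ge hins (Set.subset_insert _ _) (Set.mem_insert _ _)
  -- two edges of `X` do not cross
  have hnc : ∀ i j k l, i < j → j < 16 → k < l → l < 16 → ed i j ∈ X → ed k l ∈ X →
      cr (i, j) (k, l) = false := by
    intro i j k l hij hj hkl hl h3 h4
    rw [Bool.eq_false_iff]
    intro h5
    have h6 := cross_of (hij.trans hj) hj (hkl.trans hl) hl hij.ne hkl.ne h5
    refine hX.prop.2 _ h3 _ h4 ?_ h6
    intro heq
    rcases ed_inj (hij.trans hj) hj (hkl.trans hl) hl heq with ⟨h9, h10⟩ | ⟨h9, h10⟩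
    · rw [cr_self _ _ (Prod.ext h9 h10)] at h5
      exact Bool.noConfusion h5
    · omega
  have hA : 1 ≤ a → ∃ b', b' < b ∧ ed a (7 + b') ∈ X := by
    intro h3
    obtain ⟨k, l, hkl, hl, hm, hc⟩ := hmax (a - 1) (7 + b) (by omega) (by omega) (h1 h3)
    obtain ⟨h4, h5, h6⟩ := lem1 a ha h3 b hb l hl k hkl hc
      (hnc k l a (7 + b) hkl hl (by omega) (by omega) hm he)
      (hnc k l 0 7 hkl hl (by omega) (by omega) hm hK.1)
    refine ⟨l - 7, by omega, ?_⟩
    have : 7 + (l - 7) = l := by omega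
    rw [this, ← h4]
    exact hm
  have hB : 1 ≤ b → ∃ a', a' < a ∧ ed a' (7 + b) ∈ X := by
    intro h3
    obtain ⟨k, l, hkl, hl, hm, hc⟩ := hmax a (7 + (b - 1)) (by omega) (by omega) (h2 h3)
    obtain ⟨h4, h5⟩ := lem2 a ha b hb h3 l hl k hkl hc
      (hnc k l a (7 + b) hkl hl (by omega) (by omega) hm he)
      (hnc k l 0 7 hkl hl (by omega) (by omega) hm hK.1)
    exact ⟨k, h4, by rw [← h5]; exact hm⟩
  rcases Nat.eq_zero_or_pos a with h3 | h3
  · obtain ⟨a', h4, -⟩ := hB (by omega)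
    omega
  · obtain ⟨b', h4, h5⟩ := hA h3
    obtain ⟨a', h6, h7⟩ := hB (by omega)
    have h8 := hnc a (7 + b') a' (7 + b) (by omega) (by omega) (by omega) (by omega) h5 h7
    rw [lem3 a ha b hb a' h6 b' h4] at h8
    exact Bool.noConfusion h8

/-- some `u_a l_b` with `a + b ≥ k` (indices from `0`) is an edge of `X` -/
def Far (k : ℕ) (X : Set (Sym2 Pt)) : Prop := ∃ a b, a < 7 ∧ b < 7 ∧ k ≤ a + b ∧ ed a (7 + b) ∈ X

theorem far_step {X Y : Set (Sym2 Pt)} (hXY : ParallelFlip S X Y) (hK : Keep X) {k : ℕ}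
    (hk : 1 ≤ k) (h : Far k X) : Far (k - 1) Y := by
  obtain ⟨hX, -, E, E', hE, hind, rfl⟩ := hXY
  obtain ⟨a, b, ha, hb, hab, he⟩ := h
  by_cases hY : ed a (7 + b) ∈ E
  · have h1 : ∀ f ∈ X, ed a (7 + b) ≠ f → CommonTriangle S X (ed a (7 + b)) f →
        f ∈ (X \ E) ∪ E' := by
      intro f hf hne hc
      refine Or.inl ⟨hf, fun hfE => ?_⟩
      exact hind _ hY _ hfE hne hc
    rcases prev hX hK ha hb (by omega) he with ⟨h3, h4⟩ | ⟨h3, h4⟩
    · refine ⟨a - 1, b, by omega, hb, by omega, h1 _ h4 ?_ ?_⟩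
      · intro heq
        rcases ed_inj (by omega) (by omega) (by omega) (by omega) heq with h | h <;> omega
      · refine ⟨P (a - 1), P a, P (7 + b), ⟨?_, ?_, ?_, ?_, ?_, ?_, ?_⟩, ?_, ?_⟩
        · intro h; have := P_inj (by omega) (by omega) h; omega
        · intro h; have := P_inj (by omega) (by omega) h; omega
        · intro h; have := P_inj (by omega) (by omega) h; omega
        · exact hK.2.1 a ha h3
        · exact he
        · exact h4
        · intro x hx hh
          obtain ⟨i, hi, rfl⟩ := mem_S.mp hx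
          by_contra hc
          push Not at hc
          have d1 : i ≠ a - 1 := by rintro rfl; exact hc.1 rfl
          have d2 : i ≠ a := by rintro rfl; exact hc.2.1 rfl
          have d3 : i ≠ 7 + b := by rintro rfl; exact hc.2.2 rfl
          exact out_of hi (by omega) (by omega) (by omega) (by omega) (by omega) (by omega)
            d1 d2 d3 (lem4 a ha h3 b hb i hi d1 d2 d3) hh
        · exact Or.inr (Or.inl rfl)
        · exact Or.inr (Or.inr rfl)
    · refine ⟨a, b - 1, ha, by omega, by omega, h1 _ h4 ?_ ?_⟩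
      · intro heq
        rcases ed_inj (by omega) (by omega) (by omega) (by omega) heq with h | h <;> omega
      · refine ⟨P (7 + (b - 1)), P (7 + b), P a, ⟨?_, ?_, ?_, ?_, ?_, ?_, ?_⟩, ?_, ?_⟩
        · intro h; have := P_inj (by omega) (by omega) h; omega
        · intro h; have := P_inj (by omega) (by omega) h; omega
        · intro h; have := P_inj (by omega) (by omega) h; omega
        · exact hK.2.2 b hb h3
        · have := he
          rw [ed_comm] at this
          exact this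
        · have := h4
          rw [ed_comm] at this
          exact this
        · intro x hx hh
          obtain ⟨i, hi, rfl⟩ := mem_S.mp hx
          by_contra hc
          push Not at hc
          have d1 : i ≠ 7 + (b - 1) := by rintro rfl; exact hc.1 rfl
          have d2 : i ≠ 7 + b := by rintro rfl; exact hc.2.1 rfl
          have d3 : i ≠ a := by rintro rfl; exact hc.2.2 rfl
          exact out_of hi (by omega) (by omega) (by omega) (by omega) (by omega) (by omega)
            d1 d2 d3 (lem5 a ha b hb h3 i hi d1 d2 d3) hh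
        · exact Or.inr (Or.inl (ed_comm _ _))
        · exact Or.inr (Or.inr (ed_comm _ _))
  · exact ⟨a, b, ha, hb, by omega, Or.inl ⟨he, hY⟩⟩

theorem keep0 : (0, 7) ∈ Ls 0 ∧ (∀ a < 6, (a, a + 1) ∈ Ls 0) ∧
    ∀ b < 6, (7 + b, 7 + (b + 1)) ∈ Ls 0 := by
  decide +kernel

theorem keep11 : (0, 7) ∈ Ls 11 ∧ (∀ a < 6, (a, a + 1) ∈ Ls 11) ∧
    ∀ b < 6, (7 + b, 7 + (b + 1)) ∈ Ls 11 := by
  decide +kernel

theorem keepB (k : ℕ) (hk : k = 0 ∨ k = 11) : (0, 7) ∈ Ls k ∧
    (∀ a < 7, 1 ≤ a → (a - 1, a) ∈ Ls k) ∧ ∀ b < 7, 1 ≤ b → (7 + (b - 1), 7 + b) ∈ Ls k := by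
  have h : (0, 7) ∈ Ls k ∧ (∀ a < 6, (a, a + 1) ∈ Ls k) ∧ ∀ b < 6, (7 + b, 7 + (b + 1)) ∈ Ls k := by
    rcases hk with rfl | rfl
    · exact keep0
    · exact keep11
  refine ⟨h.1, fun a h1 h2 => ?_, fun b h1 h2 => ?_⟩
  · obtain ⟨a, rfl⟩ : ∃ c, a = c + 1 := ⟨a - 1, by omega⟩
    exact h.2.1 a (by omega)
  · obtain ⟨b, rfl⟩ : ∃ c, b = c + 1 := ⟨b - 1, by omega⟩
    exact h.2.2 b (by omega)

theorem keep_inter : Keep (T0 ∩ T1) := by
  obtain ⟨a1, a2, a3⟩ := keepB 0 (Or.inl rfl)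
  obtain ⟨b1, b2, b3⟩ := keepB 11 (Or.inr rfl)
  exact ⟨⟨⟨_, a1, rfl⟩, ⟨_, b1, rfl⟩⟩, fun a h1 h2 => ⟨⟨_, a2 a h1 h2, rfl⟩, ⟨_, b2 a h1 h2, rfl⟩⟩,
    fun b h1 h2 => ⟨⟨_, a3 b h1 h2, rfl⟩, ⟨_, b3 b h1 h2, rfl⟩⟩⟩

theorem Keep.mono {X Y : Set (Sym2 Pt)} (h : Keep X) (hXY : X ⊆ Y) : Keep Y :=
  ⟨hXY h.1, fun a h1 h2 => hXY (h.2.1 a h1 h2), fun b h1 h2 => hXY (h.2.2 b h1 h2)⟩

theorem farB : (6, 7 + 6) ∈ Ls 0 ∧ ∀ a < 7, ∀ b < 7, 1 ≤ a + b → (a, 7 + b) ∉ Ls 11 := by
  decide +kernel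

/-- a path which keeps the common edges has length at least 12 -/
theorem lower {ℓ : ℕ} {X : ℕ → Set (Sym2 Pt)} (hp : IsPath S T0 T1 ℓ X)
    (hk : ∀ i, 0 < i → i < ℓ → T0 ∩ T1 ⊆ X i) : 12 ≤ ℓ := by
  by_contra hl
  push Not at hl
  obtain ⟨h0, h1, h2⟩ := hp
  have hfar : ∀ i, i ≤ ℓ → Far (12 - i) (X i) := by
    intro i
    induction i with
    | zero =>
      intro _
      rw [h0]
      exact ⟨6, 6, by omega, by omega, by omega, ⟨_, farB.1, rfl⟩⟩
    | succ i ih =>
      intro hi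
      have hkeep : Keep (X i) := by
        rcases Nat.eq_zero_or_pos i with h | h
        · rw [h, h0]; exact keep_inter.mono Set.inter_subset_left
        · exact keep_inter.mono (hk i h (by omega))
      have := far_step (h2 i (by omega)) hkeep (by omega) (ih (by omega))
      have e : 12 - (i + 1) = 12 - i - 1 := by omega
      rw [e]
      exact this
  obtain ⟨a, b, ha, hb, hab, he⟩ := hfar ℓ le_rfl
  rw [h1] at he
  exact farB.2 a ha b hb (by omega) (mem_TS (chkL 11 (by omega)) (by omega) (by omega) he)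

/-- **The happy-edge property fails for parallel flips.**  There are a finite set `S` of points in
the plane and two triangulations `T`, `T'` of `S` such that every shortest parallel-flip path from
`T` to `T'` has an intermediate triangulation that misses an edge common to `T` and `T'`.  (And
there is a parallel-flip path from `T` to `T'`, so there are shortest ones.) -/
theorem result : ∃ (S : Finset Pt) (T T' : Set (Sym2 Pt)),
    IsTriangulation S T ∧ IsTriangulation S T' ∧ (∃ ℓ X, IsPath S T T' ℓ X) ∧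
    ∀ ℓ X, IsShortest S T T' ℓ X → ∃ i, 0 < i ∧ i < ℓ ∧ ∃ e ∈ T ∩ T', e ∉ X i := by
  refine ⟨S, T0, T1, tri_of_chk (chkL 0 (by omega)), tri_of_chk (chkL 11 (by omega)),
    ⟨11, _, path11⟩, ?_⟩
  rintro ℓ X ⟨hp, hs⟩
  by_contra hc
  push Not at hc
  have h1 := lower hp (fun i h1 h2 e he => hc i h1 h2 e he)
  have h2 := hs 11 _ path11
  omega

end Pool.Agent.Results.MP_797cb5_co.HappyEdges
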